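import Pool.Agent.Mg.Ff0649b.G523867

/-!
Relative form of the Isaacs-Seitz inequality.  Let `G` be a finite solvable group, `N` a normal
subgroup and `S` any subgroup.  If `k` is the number of degrees `d < |G : S|` of irreducible complex
representations whose kernel does not contain `N`, then the `k`-th derived subgroup of `N` lies
in `S`.
-/

open Module
open scoped commutatorElement

namespace Pool.Agent.MP_f0649b_al.Rel

open F

variable {G : Type} [Group G]

/-- `d` is the degree of an irreducible representation that is nontrivial on `K` -/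
def DegN (K : Subgroup G) (d : ℕ) : Prop := ∃ R : Rp ℂ G, Irr R.ρ ∧ ¬ Triv R.ρ K ∧ R.dim = d

theorem DegN.mono {K K' : Subgroup G} {d : ℕ} (h : DegN K d) (hK : K ≤ K') : DegN K' d :=
  let ⟨R, h1, h2, h3⟩ := h
  ⟨R, h1, fun e => h2 (e.mono hK), h3⟩

/-- the degrees over `K` above `μ` and at most `N` -/
def DsetN (K : Subgroup G) (μ N : ℕ) : Set ℕ := {d | DegN K d ∧ μ < d ∧ d ≤ N}

theorem dset_mono {K K' : Subgroup G} {μ N d : ℕ} (h : d ∈ DsetN K μ N) (hK : K ≤ K') :
    d ∈ DsetN K' μ N := ⟨h.1.mono hK, h.2⟩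

/-- the compensating degrees, over `K` -/
def OutN (K : Subgroup G) (R : Rp ℂ G) (μ N q : ℕ) : Prop :=
  (∃ x ∈ DsetN K μ N, padicValNat q R.dim ≤ padicValNat q x ∧
    (padicValNat q x ≤ padicValNat q R.dim ∨ x ≤ q * μ)) ∨
  ∃ x ∈ DsetN K μ N, ∃ y ∈ DsetN K μ N, x ≠ y ∧ padicValNat q x ≤ padicValNat q R.dim ∧
    padicValNat q y ≤ padicValNat q R.dim

theorem OutN.mono {K K' : Subgroup G} {R : Rp ℂ G} {μ N q : ℕ} (h : OutN K R μ N q)
    (hK : K ≤ K') : OutN K' R μ N q := by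
  rcases h with ⟨x, hx, h⟩ | ⟨x, hx, y, hy, h⟩
  · exact Or.inl ⟨x, dset_mono hx hK, h⟩
  · exact Or.inr ⟨x, dset_mono hx hK, y, dset_mono hy hK, h⟩

theorem vz_not_triv (F : Frame G) (R : Rp ℂ G) (hV : F.Vz R ≠ ⊥) (hL : F.L ≠ ⊥) :
    ¬ Triv R.ρ F.B := by
  intro hT
  obtain ⟨v, hv, hv0⟩ := (Submodule.ne_bot_iff _).1 hV
  refine hL (eq_bot_iff.2 ?_)
  rintro _ ⟨a, rfl⟩
  rw [Subgroup.mem_bot, F.chi_eq_one, F.rad _ a.2]
  intro b hb
  have hz := F.comm _ a.2 b hb
  have e := hv _ hz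
  rw [hT _ (F.le hz), Module.End.one_apply] at e
  exact Units.ext (smul_left_injective ℂ hv0 (e.symm.trans (one_smul ℂ v).symm))

theorem tensN [Finite G] (F : Frame G) (R : Rp ℂ G) (τ : Rp ℂ F.T) (hV : F.Vz R ≠ ⊥)
    (hL : F.L ≠ ⊥) (hd : finrank ℂ (F.Vz R) ^ 2 = Nat.card F.L) (hτ : Irr τ.ρ)
    (hB : ∀ t : F.T, (t : G) ∈ F.B → τ.ρ t = 1) :
    DegN F.B (F.T.index * (finrank ℂ (F.Vz R) * τ.dim)) := by
  have h0 := l0
  have h1 : IE_st := ie_main
  have h2 : TIRR_st := l1.tirr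
  have h3 : COMP_st := l2.comp
  classical
  have hS : Inv R.ρ F.B (F.Vz R) := (F.inv_Vz R).mono F.B_le_T
  obtain ⟨v, hv, hv0⟩ := (Submodule.ne_bot_iff _).1 hV
  have li := h0.li0 R.ρ F.B (F.Vz R) hS hV
    (fun a ha b hb => ⟨_, fun w hw => hw _ (F.comm a ha b hb)⟩)
    (fun q : F.B ⧸ F.Z.subgroupOf F.B => q.out) fun i j hij => by
      have e : ¬ (((i.out)⁻¹ * j.out : F.B) : G) ∈ F.Z := fun e => hij (by
        rw [← i.out_eq', ← j.out_eq']
        exact QuotientGroup.eq.2 e)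
      rw [F.rad _ ((i.out)⁻¹ * j.out).2] at e
      push Not at e
      obtain ⟨c, hc, e⟩ := e
      refine ⟨c, hc, v, hv, fun e' => e (Units.ext ?_)⟩
      have e2 := hv _ (F.comm _ ((i.out)⁻¹ * j.out).2 c hc)
      have e3 := e2.symm.trans e'
      exact smul_left_injective ℂ hv0 (e3.trans (one_smul ℂ v).symm)
  let σ : Rp ℂ F.T := { V := F.Vz R, ρ := res R.ρ F.T (F.Vz R) (F.inv_Vz R) }
  have d0 : 0 < σ.dim := Nat.pos_of_ne_zero fun e => hV (Submodule.finrank_eq_zero.1 e)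
  have := Fintype.ofFinite (F.B ⧸ F.Z.subgroupOf F.B)
  have sp := li.span_eq_top_of_card_eq_finrank' (by
    rw [Module.finrank_linearMap, ← sq, hd, F.card_L, Subgroup.relIndex, Subgroup.index,
      Nat.card_eq_fintype_card])
  have irr := h2 σ τ (F.B.subgroupOf F.T) d0 (top_le_iff.1 (sp.ge.trans (Submodule.span_mono (by
    rintro _ ⟨q, rfl⟩
    exact ⟨⟨q.out, F.B_le_T q.out.2⟩, q.out.2, rfl⟩)))) hτ fun t ht => hB t ht
  let M : Rp ℂ F.T := { V := TensorProduct ℂ σ.V τ.V, ρ := σ.ρ.tprod τ.ρ }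
  have dM : M.dim = finrank ℂ (F.Vz R) * τ.dim := Module.finrank_tensorProduct
  obtain ⟨R', r1, ι, r2, r3, r4, -⟩ := h1 F.T.subtype F.T.subtype_injective M irr 2 Nat.prime_two
  rw [Subgroup.range_subtype] at r4
  have hz : LinearMap.range ι ≤ F.Vz R' := by
    rintro _ ⟨m, rfl⟩ z hz
    have hT : z ∈ F.T := F.B_le_T (F.le hz)
    have e1 : σ.ρ ⟨z, hT⟩ = (F.ζ z : ℂ) • LinearMap.id :=
      LinearMap.ext fun w => Subtype.ext (w.2 z hz)
    have e2 : M.ρ ⟨z, hT⟩ = (F.ζ z : ℂ) • LinearMap.id := by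
      change TensorProduct.map (σ.ρ ⟨z, hT⟩) (τ.ρ ⟨z, hT⟩) = _
      rw [e1, hB _ (F.le hz), TensorProduct.map_smul_left, Module.End.one_eq_id,
        TensorProduct.map_id]
    have := r3 ⟨z, hT⟩ m
    rw [e2, LinearMap.smul_apply, LinearMap.id_apply, map_smul] at this
    exact this
  have d1 : M.dim ≤ finrank ℂ (F.Vz R') :=
    (LinearMap.finrank_range_of_inj r2).ge.trans (Submodule.finrank_mono hz)
  have hne : F.Vz R' ≠ ⊥ := fun e => by
    have := Rp.dim_pos (R := M) irr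
    rw [e, finrank_bot] at d1
    omega
  refine ⟨R', r1, vz_not_triv F R' hne hL, le_antisymm (dM ▸ r4) ?_⟩
  rw [(h3 F R' r1 hne).1, ← dM]
  exact Nat.mul_le_mul_left _ d1

theorem nwxN [Finite G] [Group.IsSolvable G] (Y : Subgroup G) (R : Rp ℂ G) (μ N q : ℕ)
    (F : Frame G) (x : F.X) (hE : Exc Y R μ N F) (hF : Fpf Y F.L) (hq : q.Prime) (hx : x ∈ F.L)
    (hx1 : x ≠ 1) (hN : orb F.T x * F.T.index ≤ N)
    (hv : padicValNat q (orb F.T x) ≤ padicValNat q (finrank ℂ (F.Vz R))) :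
    ∃ D f c : ℕ, D ∈ DsetN F.B μ N ∧ padicValNat q D ≤ padicValNat q R.dim ∧
      μ < (MulAction.stabilizer G x).index ∧
      c * (MulAction.stabilizer G x).index = orb F.T x * F.T.index ∧
      D = f * (MulAction.stabilizer G x).index ∧ 0 < f ∧ f ≤ c := by
  have h2 := l2
  have h3 := l3
  have := hE.nY
  have := Fact.mk hq
  obtain ⟨hdim, -, -⟩ := h2.comp F R hE.irr hE.vz
  obtain ⟨R', a1, -, a3, -, a5, a6, -, f, a7⟩ := h2.monx F x hx hx1 q hq
  have hm0 : F.T.index ≠ 0 := Subgroup.index_ne_zero_of_finite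
  have ho0 : orb F.T x ≠ 0 := Subgroup.index_ne_zero_of_finite
  have hd0 : finrank ℂ (F.Vz R) ≠ 0 := fun e => hE.vz (Submodule.finrank_eq_zero.1 e)
  have hg : μ < (MulAction.stabilizer G x).index := not_le.1 fun e =>
    hx1 (hF x hx fun y hy => (h3.gpl Y μ hE.low).1 _ e hy)
  have hpos := Rp.dim_pos a1
  have hf : 0 < f := Nat.pos_of_mul_pos_right (a7 ▸ hpos)
  have hc : (F.T ⊓ MulAction.stabilizer G x).relIndex (MulAction.stabilizer G x) *
      (MulAction.stabilizer G x).index = orb F.T x * F.T.index := by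
    rw [orb_mul_index, Subgroup.relIndex_mul_index inf_le_right]
  refine ⟨R'.dim, f, _, ⟨⟨R', a1, a3, rfl⟩, ?_, a5.trans hN⟩, ?_, hg, hc, a7, hf, ?_⟩
  · rw [a7]
    exact hg.trans_le (Nat.le_mul_of_pos_left _ hf)
  · rw [padicValNat.mul ho0 hm0] at a6
    rw [hdim, padicValNat.mul hm0 hd0]
    omega
  · rw [a7, ← hc] at a5
    exact Nat.le_of_mul_le_mul_right a5 (by omega)

theorem exsN [Finite G] [Group.IsSolvable G] (Y : Subgroup G) (R : Rp ℂ G) (μ N q a : ℕ)
    (F : Frame G) (hE : Exc Y R μ N F) (hL : Lin F.L F.T Y q a (finrank ℂ (F.Vz R)))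
    (ho : O1 F.L F.T Y q a (finrank ℂ (F.Vz R)) ∨ O4 F.L F.T Y q a (finrank ℂ (F.Vz R)) ∨
      O5 F.L F.T Y q a (finrank ℂ (F.Vz R))) : OutN F.B R μ N q := by
  have h2 := l2
  have h3 := l3
  have k1 : K14_st := k14_main
  have k5 : K5_st := k5_main
  have hk : KAP_st := kap_main
  have := hE.nY
  have := Fact.mk hL.prime
  obtain ⟨hdim, -, -⟩ := h2.comp F R hE.irr hE.vz
  have hle := hE.le
  set m := F.T.index with hm
  set d := finrank ℂ (F.Vz R) with hd
  have hm0 : 0 < m := Nat.pos_of_ne_zero Subgroup.index_ne_zero_of_finite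
  have hd0 : 0 < d := hL.dpos
  have key : ∀ n, Tau F.L F.T n → d = q ^ a → 0 < n → μ < m * (d * n) → m * (d * n) ≤ N →
      (¬ q ∣ n ∨ m * (d * n) ≤ q * μ) → OutN F.B R μ N q := by
    intro n ⟨τ, t1, t2, t3⟩ e hn a1 a2 a3
    have hD := tensN F R τ hE.vz hE.ne (by rw [← hd, e, hL.card, ← pow_mul, mul_comm]) t1
      (fun t ht => t3 t fun x _ => by rw [F.smul_of_mem_B ht, one_smul])
    rw [t2] at hD
    have hv : padicValNat q (m * (d * n)) = padicValNat q R.dim + padicValNat q n := by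
      rw [hdim, ← mul_assoc, padicValNat.mul (by positivity) hn.ne']
    refine Or.inl ⟨m * (d * n), ⟨hD, a1, a2⟩, by omega, a3.imp (fun h => ?_) id⟩
    rw [hv, padicValNat.eq_zero_of_not_dvd h, add_zero]
  rcases ho with ⟨rfl, rfl, e, hS, hτ⟩ | ⟨rfl, rfl, e, hS, hτ⟩ | ⟨rfl, rfl, e, hS, hτ, hy⟩
  · have a1 := hE.low _ hS
    have a2 : 4 * m ≤ N :=
      hk F 4 N (k1 F.sym 2 4 Nat.prime_two hL.card le_rfl le_rfl hL.irr) hE.rd
    rw [hdim, e] at hle
    refine key 2 hτ (by rw [e]; rfl) two_pos ?_ ?_ (Or.inr ?_) <;> rw [e] <;> omega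
  · have a1 := hE.low _ hS
    have a2 : 6 * m ≤ N :=
      hk F 6 N (k1 F.sym 3 6 Nat.prime_three hL.card (by norm_num) le_rfl hL.irr) hE.rd
    refine key 2 hτ (by rw [e]; rfl) two_pos ?_ ?_ (Or.inl (by norm_num)) <;> rw [e] <;> omega
  · have a1 := hE.low _ hS
    rw [hdim, e] at hle
    obtain ⟨g1, g2⟩ := (h3.gpl Y μ hE.low).2.2 F.T 8
    have a2 : 36 * m ≤ N :=
      hk F 36 N (k5 F.sym Y hL.card hL.exp hL.irr hy (g1 (by omega)) (g2 (by omega))) hE.rd
    refine key 4 hτ (by rw [e]; rfl) (by norm_num) ?_ ?_ (Or.inl (by norm_num)) <;> rw [e] <;> omega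

open ExP2Aux in
theorem exp2N [Finite G] [Group.IsSolvable G] (Y : Subgroup G) (R : Rp ℂ G) (μ N q a : ℕ)
    (F : Frame G) (hE : Exc Y R μ N F) (hF : Fpf Y F.L)
    (hL : Lin F.L F.T Y q a (finrank ℂ (F.Vz R))) (hO : O2 F.L F.T Y q a (finrank ℂ (F.Vz R))) :
    OutN F.B R μ N q := by
  have h2 := l2
  have h3 := l3
  have hc : CLASS_st := class_main
  have ht : T2_st := t2_main
  have hk : KAP_st := kap_main
  obtain ⟨hq, ha, hd, hS, r, J, hr, hr2, hJ, hnJ, hJr, hJ1, hJ4⟩ := hO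
  subst hq ha
  have := hE.nY
  obtain ⟨hdim, -, -⟩ := h2.comp F R hE.irr hE.vz
  set m := F.T.index with hm
  have hm0 : 0 < m := Nat.pos_of_ne_zero Subgroup.index_ne_zero_of_finite
  have h4 : μ = 4 * m := by
    have a1 := hE.le
    have a2 := hE.low _ hS
    rw [hdim, hd] at a1
    omega
  obtain ⟨hK, x1, hx1, x2, hx2, n1, n2, ho⟩ := ht F.sym Y J r hL.card hL.exp hL.irr hr hr2 hJ hnJ
    (fun y hy y' hy' x hx => by
      have e : y * y' = ⁅y, y'⁆ * (y' * y) := by rw [commutatorElement_def]; group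
      rw [e, mul_smul, hL.ab _ (Subgroup.commutator_mem_commutator (hJ hy) (hJ hy')) _
        (hL.inv _ (hL.le (Y.mul_mem (hJ hy') (hJ hy))) x hx), one_smul])
    hJr hJ1 hJ4 (((h3.gpl Y μ hE.low).2.2 F.T 4).1 h4.ge)
  have hN : 10 * m ≤ N := hk F 10 N hK hE.rd
  simp only [Frame.sym_T, Frame.sym_L] at ho hx1 hx2
  have o1 : orb F.T x1 = 6 ∨ orb F.T x1 = 5 := ho.imp And.left And.left
  have o2 : orb F.T x2 = 9 ∨ orb F.T x2 = 10 := ho.imp And.right fun h => h.2.1
  obtain ⟨D1, f1, c1, a1, a2, a3, a4, a5, a6, a7⟩ := nwxN Y R μ N 2 F x1 hE hF Nat.prime_two hx1 n1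
    ((Nat.mul_le_mul_right _ (by omega)).trans hN) (val_le hd (by omega))
  obtain ⟨D2, f2, c2, b1, b2, b3, b4, b5, b6, b7⟩ := nwxN Y R μ N 2 F x2 hE hF Nat.prime_two hx2 n2
    ((Nat.mul_le_mul_right _ (by omega)).trans hN) (val_le hd (by omega))
  refine Or.inr ⟨D1, a1, D2, b1, ?_, a2, b2⟩
  rw [h4] at a3 b3
  rw [a5, b5, small m _ c1 f1 _ a3 a4 a6 a7 (by omega)]
  rcases ho with ⟨e1, e2⟩ | ⟨e1, e2, hQ⟩
  · rw [e1]
    rw [e2] at b4
    exact ne9 m _ c2 f2 b3 b4 b6 b7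
  · have hTH : F.T ≤ stabR G F.L := hL.inv.le_stabR
    have hi := Subgroup.relIndex_mul_index hTH
    have hi0 : F.T.relIndex (stabR G F.L) ≠ 0 := Subgroup.index_ne_zero_of_finite
    have hle : (stabR G F.L).index ≤ m := by
      rw [hm, ← hi]
      exact Nat.le_mul_of_pos_left _ (Nat.pos_of_ne_zero hi0)
    have hH : Small Y (4 * (stabR G F.L).index) := by
      rcases hc F.L (stabR G F.L) Y 2 2 _ ⟨hL.prime, hL.apos, hL.card, hL.exp, sInv_stabR _,
        fun Q h1 h2 => hL.irr Q h1 fun g hg => h2 g (hTH hg), hL.nJ, hL.le.trans hTH, hL.ab, hL.ne,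
        hL.dvd, hL.dpos, fun n hn => (Nat.mul_le_mul_right _ hle).trans (hL.low n hn)⟩ with
        h | h | h | h | h
      · exact absurd h.2.1 (by norm_num)
      · exact h.2.2.2.1
      · exact absurd h.2.1 (by norm_num)
      · exact absurd h.1 (by norm_num)
      · exact absurd h.1 (by norm_num)
    have hge := hE.low _ hH
    have h1 : F.T.relIndex (stabR G F.L) = 1 := by
      by_contra h
      have : 2 * (stabR G F.L).index ≤ F.T.relIndex (stabR G F.L) * (stabR G F.L).index :=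
        Nat.mul_le_mul_right _ (by omega)
      omega
    have hst : MulAction.stabilizer G x2 ≤ F.T :=
      (stab_le hx2 (fun y hy => hL.inv y (hL.le hy)) hQ).trans (Subgroup.relIndex_eq_one.1 h1)
    have hg : (MulAction.stabilizer G x2).index = 10 * m := by
      rw [← e2, hm, orb_mul_index, inf_eq_right.2 hst]
    rw [e1, hg]
    have : 10 * m ≤ f2 * (10 * m) := Nat.le_mul_of_pos_left _ b6
    omega

open ExP3Aux in
theorem exp3N [Finite G] [Group.IsSolvable G] (Y : Subgroup G) (R : Rp ℂ G) (μ N q a : ℕ)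
    (F : Frame G) (hE : Exc Y R μ N F) (hF : Fpf Y F.L)
    (hL : Lin F.L F.T Y q a (finrank ℂ (F.Vz R))) (hO : O3 F.L F.T Y q a (finrank ℂ (F.Vz R))) :
    OutN F.B R μ N q := by
  have h0 := l0
  have h2 := l2
  have h3 := l3
  have ht : T3_st := t3_main
  have hk : KAP_st := kap_main
  obtain ⟨hq, ha, hd, _, y, hy, hy1, hy3, hu⟩ := hO
  subst hq ha
  have := hE.nY
  obtain ⟨hdim, -, -⟩ := h2.comp F R hE.irr hE.vz
  set m := F.T.index with hm
  have hm0 : 0 < m := Nat.pos_of_ne_zero Subgroup.index_ne_zero_of_finite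
  have h8 : 8 * m ≤ μ := by
    have := hE.le
    rw [hdim] at this
    rcases hd with e | e <;> rw [e] at this <;> omega
  have hfp : ∀ x ∈ F.L, y • x = x → x = 1 := fun x hx e => hF x hx fun u hu' => by
    rcases hu u hu' with h | h | h
    · rw [h x hx, one_smul]
    · rw [h x hx, e]
    · rw [h x hx, pow_two, mul_smul, e, e]
  have hg : ∀ x ∈ F.L, x ≠ 1 → 12 * m ≤ (MulAction.stabilizer G x).index := by
    intro x hx hx1
    have hY : ¬ Y ≤ MulAction.stabilizer G x := fun h => hx1 (hfp x hx (h hy))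
    obtain ⟨n, hn1, hn2⟩ := h3.f2 Y _ (MulAction.stabilizer G x ⊔ Y) hY le_sup_left le_sup_right
    have a1 := hE.low n hn1
    have a2 := Subgroup.relIndex_mul_index
      (le_sup_left : MulAction.stabilizer G x ≤ MulAction.stabilizer G x ⊔ Y)
    have a3 : (MulAction.stabilizer G x).relIndex (MulAction.stabilizer G x ⊔ Y) ≤ 3 := by
      rw [(h0.orb _).1 x]
      refine le_trans (Set.ncard_le_ncard (t := {x, y • x, y ^ 2 • x}) ?_ (Set.toFinite _)) ?_
      · rintro _ ⟨h, hh, rfl⟩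
        rw [sup_comm, ← SetLike.mem_coe, Subgroup.normal_mul] at hh
        obtain ⟨u, hu', s, hs, rfl⟩ := hh
        have hs' : s • x = x := hs
        simp only [mul_smul, hs', Set.mem_insert_iff, Set.mem_singleton_iff]
        rcases hu u hu' with h | h | h
        · exact Or.inl (by rw [h x hx, one_smul])
        · exact Or.inr (Or.inl (h x hx))
        · exact Or.inr (Or.inr (h x hx))
      · exact Set.ncard_insert_le _ _ |>.trans
          (Nat.succ_le_succ ((Set.ncard_insert_le _ _).trans (by simp)))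
    have a4 := Nat.mul_le_mul_right (MulAction.stabilizer G x ⊔ Y).index a3
    omega
  have horb : ∀ x ∈ F.L, x ≠ 1 → 12 ≤ orb F.T x := by
    intro x hx hx1
    have a1 := hg x hx hx1
    have a2 : (MulAction.stabilizer G x).index ≤ orb F.T x * m := by
      rw [hm, orb_mul_index]
      exact Nat.le_of_dvd (Nat.pos_of_ne_zero Subgroup.index_ne_zero_of_finite)
        (Subgroup.index_dvd_of_le inf_le_right)
    exact Nat.le_of_mul_le_mul_right (a1.trans a2) hm0
  have hconj : ∀ t ∈ F.T, Same F.L (t * y) (y * t) ∨ Same F.L (t * y) (y ^ 2 * t) := by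
    intro t ht'
    have e : t * y = t * y * t⁻¹ * t := by group
    rcases hu _ (this.conj_mem y hy t) with h | h | h
    · refine absurd (fun x hx => ?_) hy1
      have := h _ (hL.inv t ht' x hx)
      rw [← mul_smul, ← e, one_smul, mul_smul] at this
      rw [one_smul]
      exact smul_left_cancel t this
    · exact Or.inl fun x hx => by rw [e, mul_smul, h _ (hL.inv t ht' x hx), ← mul_smul]
    · exact Or.inr fun x hx => by rw [e, mul_smul, h _ (hL.inv t ht' x hx), ← mul_smul]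
  obtain ⟨hK, x1, hx1, x2, hx2, n1, n2, ho⟩ := ht F.sym Y y hL.card hL.exp hy hy3 hfp hconj
    (((h3.gpl Y μ hE.low).2.2 F.T 8).1 h8) horb
  have hN : 36 * m ≤ N := hk F 36 N hK hE.rd
  simp only [Frame.sym_T, Frame.sym_L] at ho hx1 hx2
  have o1 : orb F.T x1 = 12 ∨ orb F.T x1 = 27 := by omega
  have o2 : orb F.T x2 = 12 ∨ orb F.T x2 = 15 ∨ orb F.T x2 = 18 ∨ orb F.T x2 = 36 := by omega
  obtain ⟨D1, f1, c1, a1, a2, -, a4, a5, a6, a7⟩ := nwxN Y R μ N 2 F x1 hE hF Nat.prime_two hx1 n1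
    ((Nat.mul_le_mul_right _ (by omega)).trans hN) (val_le hd (by omega))
  obtain ⟨D2, f2, c2, b1, b2, -, b4, b5, b6, b7⟩ := nwxN Y R μ N 2 F x2 hE hF Nat.prime_two hx2 n2
    ((Nat.mul_le_mul_right _ (by omega)).trans hN) (val_le hd (by omega))
  refine Or.inr ⟨D1, a1, D2, b1, ?_, a2, b2⟩
  rw [a5, b5]
  rcases ho with ⟨e1, e2⟩ | ⟨e1, -⟩
  · rw [e1] at a4
    rw [e2] at b4
    rw [small m _ c1 f1 12 hm0 (hg x1 hx1 n1) a4 a6 a7 (by norm_num),
      small m _ c2 f2 15 hm0 (hg x2 hx2 n2) b4 b6 b7 (by norm_num)]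
    omega
  · rw [e1] at a4
    exact ne27 m _ c1 f1 _ c2 f2 _ hm0 (hg x1 hx1 n1) a4 a6 a7 (hg x2 hx2 n2) b4 b6 b7 o2

theorem exN [Finite G] [Group.IsSolvable G] (Y : Subgroup G) (R : Rp ℂ G) (μ N p : ℕ)
    (F : Frame G) (hE : Exc Y R μ N F) (hp : p.Prime) (hd : p ∣ Nat.card F.L) :
    OutN F.B R μ N p := by
  obtain ⟨hf, q, a, hL⟩ := ex2_of l0 l1 l2 l3 Y R μ N F hE
  have e : p = q := by
    rw [hL.card] at hd
    exact (Nat.prime_dvd_prime_iff_eq hp hL.prime).1 (hp.dvd_of_dvd_pow hd)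
  subst e
  rcases class_main _ _ _ _ _ _ hL with h | h | h | h | h
  · exact exsN Y R μ N p a F hE hL (Or.inl h)
  · exact exp2N Y R μ N p a F hE hf hL h
  · exact exp3N Y R μ N p a F hE hf hL h
  · exact exsN Y R μ N p a F hE hL (Or.inr (Or.inl h))
  · exact exsN Y R μ N p a F hE hL (Or.inr (Or.inr h))

/-- the least weight at each level of the derived series -/
noncomputable def mu (K : Subgroup G) : ℕ → ℕ
  | 0 => 0
  | t + 1 => sInf {k | Small (der K t) k}

section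
variable {K : Subgroup G}

theorem low_mu (t : ℕ) : Low (der K t) (mu K (t + 1)) :=
  fun _ hn => Nat.sInf_le hn

theorem small_mu {t N : ℕ} (h : Small (der K t) N) :
    Small (der K t) (mu K (t + 1)) :=
  Nat.sInf_mem (s := {k | Small (der K t) k}) ⟨N, h⟩

theorem small_down [Finite G] [K.Normal] (h3 : L3) {s t N : ℕ} (hs : s ≤ t)
    (h : Small (der K t) N) : Small (der K s) N := by
  obtain ⟨i, rfl⟩ := Nat.exists_eq_add_of_le hs
  rw [← der_der] at h
  exact (h3.f3i _ i N h).mono (Nat.sub_le _ _)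

theorem mu_mono [Finite G] [K.Normal] (h3 : L3) {r s t N : ℕ} (h : Small (der K t) N)
    (hr : r ≤ s) (hs : s ≤ t + 1) : mu K r ≤ mu K s := by
  rcases r with _ | r
  · exact Nat.zero_le _
  rcases s with _ | s
  · omega
  exact low_mu r _ (small_down h3 (by omega) (small_mu (small_down h3 (by omega) h)))

theorem not_triv {R : Rp ℂ G} {p : ℕ} {A : Subgroup G} (h : PZ R p A) : ¬ Triv R.ρ A :=
  fun e => let ⟨z, hz, h1, _⟩ := h; h1 (e z hz)

end

/-- the chain of degrees above a stopping level -/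
theorem chain [Finite G] [Group.IsSolvable G] (K : Subgroup G) [K.Normal] (p N : ℕ)
    (hp : p.Prime) (t : ℕ) :
    ∀ R : Rp ℂ G, Irr R.ρ → Wt R.ρ N → Triv R.ρ (der K (t + 1)) → PZ R p (der K t) →
    ∃ r ≤ t, ∃ D : Finset ℕ, D.card = t + 1 - r ∧ ∀ x ∈ D, x ∈ DsetN K (mu K r) N ∧
      (padicValNat p x ≤ padicValNat p R.dim ∨ x ≤ p * mu K t) := by
  have h1 := l1
  have h2 := l2
  have h3 := l3
  induction t with
  | zero =>
    intro R hR hW _ hP
    refine ⟨0, le_rfl, {R.dim}, rfl, fun x hx => ?_⟩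
    rw [Finset.mem_singleton] at hx
    subst hx
    exact ⟨⟨⟨R, hR, not_triv hP, rfl⟩, Rp.dim_pos hR, h1.wd R N hR hW⟩, Or.inl le_rfl⟩
  | succ t ih =>
    intro R hR hW hT hP
    have hN : R.dim ≤ N := h1.wd R N hR hW
    have hRK : ¬ Triv R.ρ K := fun e => not_triv hP (e.mono (der_le K _))
    have hSm : Small (der K (t + 1)) N := ⟨R, hR, hT, not_triv hP, hW⟩
    by_cases hstop : mu K (t + 1) < R.dim
    · refine ⟨t + 1, le_rfl, {R.dim}, by simp, fun x hx => ?_⟩
      rw [Finset.mem_singleton] at hx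
      subst hx
      exact ⟨⟨⟨R, hR, hRK, rfl⟩, hstop, hN⟩, Or.inl le_rfl⟩
    obtain ⟨F, hB, hV, hrd, hpL, hpT, x, hx, hx1, R', hR', hW', hT', hP', hv, hix⟩ :=
      h3.step R (der K t) p N _ hp hR hW hT hP (low_mu t) (not_lt.1 hstop)
    have hN' : R'.dim ≤ N := h1.wd R' N hR' hW'
    have hRK' : ¬ Triv R'.ρ K := fun e => not_triv hP' (e.mono (der_le K _))
    have hmm : p * mu K t ≤ p * mu K (t + 1) :=
      Nat.mul_le_mul_left _ (mu_mono h3 hSm (by omega) (by omega))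
    by_cases ha : mu K t < R'.dim
    · have pair : ∀ y, y ∈ DsetN K (mu K t) N → padicValNat p R'.dim < padicValNat p y →
          (padicValNat p y ≤ padicValNat p R.dim ∨ y ≤ p * mu K (t + 1)) →
          ∃ r ≤ t + 1, ∃ D : Finset ℕ, D.card = t + 1 + 1 - r ∧ ∀ x ∈ D, x ∈ DsetN K (mu K r) N ∧
            (padicValNat p x ≤ padicValNat p R.dim ∨ x ≤ p * mu K (t + 1)) := by
        intro y hy hlt hor
        refine ⟨t, by omega, {R'.dim, y}, ?_, fun z hz => ?_⟩
        · rw [Finset.card_pair (fun e => by rw [e] at hlt; exact lt_irrefl _ hlt)]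
          omega
        · rw [Finset.mem_insert, Finset.mem_singleton] at hz
          rcases hz with rfl | rfl
          · exact ⟨⟨⟨R', hR', hRK', rfl⟩, ha, hN'⟩, Or.inl hv.le⟩
          · exact ⟨hy, hor⟩
      by_cases hb : mu K t < R.dim
      · exact pair R.dim ⟨⟨R, hR, hRK, rfl⟩, hb, hN⟩ hv (Or.inl le_rfl)
      rcases t with _ | t
      · exact absurd (Rp.dim_pos hR) hb
      have hne : F.L ≠ ⊥ := fun e => hx1 (by rwa [e, Subgroup.mem_bot] at hx)
      rcases (exN (der K t) R _ N p F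
        ⟨inferInstance, hR, low_mu t, not_lt.1 hb, hB, hV, hne, hrd⟩ hp hpL).mono
        (hB.le.trans (der_le K _)) with
        ⟨y, hy, e, e'⟩ | ⟨y, hy, z, hz, hyz, e, e'⟩
      · exact pair y hy (hv.trans_le e) (e'.imp id fun e' => e'.trans hmm)
      · refine ⟨t + 1, by omega, {y, z}, ?_, fun w hw => ?_⟩
        · rw [Finset.card_pair hyz]
          omega
        · rw [Finset.mem_insert, Finset.mem_singleton] at hw
          rcases hw with rfl | rfl
          · exact ⟨hy, Or.inl e⟩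
          · exact ⟨hz, Or.inl e'⟩
    · rcases t with _ | t
      · exact absurd (Rp.dim_pos hR') ha
      have hg := (h3.gpl (der K t) _ (low_mu t)).1
      have hY := hg _ (hix.trans (not_lt.1 ha))
      have hnT : ¬ der K t ≤ F.T := fun hle =>
        hx1 (h2.ca F _ hle (le_of_eq hB) x hx fun y hy => hY hy)
      have hlt : mu K (t + 1) < F.T.index := not_le.1 fun e => hnT (hg _ e)
      have hbig : p * mu K (t + 1) < R.dim :=
        lt_of_lt_of_le (Nat.mul_lt_mul_of_pos_left hlt hp.pos) hpT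
      obtain ⟨r, hr, D, hD, hD'⟩ := ih R' hR' hW' hT' hP'
      have hnew : R.dim ∉ D := fun hm => by
        rcases (hD' _ hm).2 with e | e
        · omega
        · omega
      refine ⟨r, by omega, insert R.dim D, ?_, fun w hw => ?_⟩
      · rw [Finset.card_insert_of_notMem hnew, hD]
        omega
      · rw [Finset.mem_insert] at hw
        rcases hw with rfl | hw
        · refine ⟨⟨⟨R, hR, hRK, rfl⟩, ?_, hN⟩, Or.inl le_rfl⟩
          have a1 : mu K r ≤ mu K (t + 1) := mu_mono h3 hSm hr (by omega)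
          have a2 : mu K (t + 1) ≤ p * mu K (t + 1) := Nat.le_mul_of_pos_left _ hp.pos
          omega
        · refine ⟨(hD' w hw).1, ?_⟩
          rcases (hD' w hw).2 with e | e
          · exact Or.inl (e.trans hv.le)
          · exact Or.inr (e.trans hmm)

/-- a small weight at level `n` gives `n + 1` degrees -/
theorem many [Finite G] [Group.IsSolvable G] (K : Subgroup G) [K.Normal] (n : ℕ) :
    ∀ N, Small (der K n) N →
    ∃ D : Finset ℕ, D.card = n + 1 ∧ ∀ x ∈ D, DegN K x ∧ x ≤ N := by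
  have h1 := l1
  have h3 := l3
  induction n using Nat.strong_induction_on with
  | _ n ih =>
    intro N hSm
    obtain ⟨R, hR, hT, hnT, hW⟩ := id hSm
    obtain ⟨p, hp, hP⟩ := h1.abp R _ hnT
    obtain ⟨r, hr, D, hD, hD'⟩ := chain K p N hp n R hR hW hT hP
    rcases r with _ | r
    · exact ⟨D, hD, fun x hx => ⟨(hD' x hx).1.1, (hD' x hx).1.2.2⟩⟩
    obtain ⟨E, hE, hE'⟩ := ih r (by omega) _ (small_mu (small_down h3 (by omega) hSm))
    have hle : mu K (r + 1) ≤ N := low_mu r _ (small_down h3 (by omega) hSm)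
    refine ⟨D ∪ E, ?_, fun x hx => ?_⟩
    · rw [Finset.card_union_of_disjoint, hD, hE]
      · omega
      · rw [Finset.disjoint_left]
        intro x hx hx'
        have := (hD' x hx).1.2.1
        have := (hE' x hx').2
        omega
    · rcases Finset.mem_union.1 hx with hx | hx
      · exact ⟨(hD' x hx).1.1, (hD' x hx).1.2.2⟩
      · exact ⟨(hE' x hx).1, (hE' x hx).2.trans hle⟩

theorem der_map (K : Subgroup G) (n : ℕ) : (derivedSeries K n).map K.subtype = der K n := by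
  induction n with
  | zero => rw [derivedSeries_zero, ← MonoidHom.range_eq_map, Subgroup.range_subtype]; rfl
  | succ n ih => rw [derivedSeries_succ, Subgroup.map_commutator, ih, der_succ]

theorem coord {K : Subgroup G} {d : ℕ} (h : DegN K d) :
    ∃ ρ : Representation ℂ G (Fin d → ℂ), ρ.IsIrreducible ∧ ¬ K ≤ MonoidHom.ker ρ := by
  obtain ⟨R, h, hK, hd⟩ := h
  rw [Rp.dim_def] at hd
  subst hd
  let A : R.V ≃ₗ[ℂ] (Fin (Module.finrank ℂ R.V) → ℂ) := (Module.finBasis ℂ R.V).equivFun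
  refine ⟨(A.conjRingEquiv.toMonoidHom).comp R.ρ, (Bridge_irr_iff _).1 ⟨?_, fun U hU => ?_⟩,
    fun e => hK fun g hg => ?_⟩
  · have := h.1
    exact A.symm.toEquiv.nontrivial
  · rcases h.2 (U.comap A.toLinearMap) (fun g v hv => by
      have := hU g (A v) hv
      simpa using this) with e | e
    · left
      rw [eq_bot_iff]
      intro w hw
      have : A.symm w ∈ U.comap A.toLinearMap := by simpa using hw
      rw [e] at this
      simpa using this
    · right
      rw [eq_top_iff]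
      intro w _
      have : A.symm w ∈ U.comap A.toLinearMap := e ▸ trivial
      simpa using this
  · have e1 : A.conjRingEquiv (R.ρ g) = 1 := e hg
    exact A.conjRingEquiv.injective (e1.trans (map_one _).symm)

end Pool.Agent.MP_f0649b_al.Rel

open Pool.Agent.MP_f0649b_al

namespace Pool.Agent.Results.MP_f0649b_al.Relative

theorem result (G : Type) [Group G] [Finite G] [Group.IsSolvable G] (N S : Subgroup G) [N.Normal] :
    (derivedSeries N {d : ℕ | d < S.index ∧ ∃ ρ : Representation ℂ G (Fin d → ℂ),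
      ρ.IsIrreducible ∧ ¬ N ≤ MonoidHom.ker ρ}.ncard).map N.subtype ≤ S := by
  rw [Rel.der_map]
  by_contra h
  obtain ⟨n, hn, hi⟩ := F.f2_main _ S ⊤ h le_top le_top
  rw [Subgroup.index_top] at hi
  obtain ⟨D, hD, hD'⟩ := Rel.many N _ n hn
  have hsub : (D : Set ℕ) ⊆ {d : ℕ | d < S.index ∧ ∃ ρ : Representation ℂ G (Fin d → ℂ),
      ρ.IsIrreducible ∧ ¬ N ≤ MonoidHom.ker ρ} := fun x hx =>
    ⟨lt_of_le_of_lt (hD' x hx).2 hi, Rel.coord (hD' x hx).1⟩
  have := Set.ncard_le_ncard hsub ((Set.finite_Iio S.index).subset fun _ h => h.1)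
  rw [Set.ncard_coe_finset, hD] at this
  omega

end Pool.Agent.Results.MP_f0649b_al.Relative
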